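import Pool.Agent.Lib.MP_53850c_co.LF.Formula

/-!
# Selection of the variables: pigeonhole on the attachment sets
-/

namespace Pool.Agent.Lib.MP_53850c_co.LF

open Finset

variable {n : ℕ} {S : Type}

/-- All variables in `Y` are attached to the same edges of the subtree spanned by `U`. -/
def Good (Φ : Fm n S) (U Y : Finset (Fin n)) : Prop :=
  Φ.occU U = 0 ∨ ∃ (a : Att Φ U) (A : Finset a.E), ∀ j ∈ Y, a.att j = A

lemma Good.mono {Φ : Fm n S} {U Y Y' : Finset (Fin n)} (h : Good Φ U Y) (hY : Y' ⊆ Y) :
    Good Φ U Y' := by
  rcases h with h | ⟨a, A, h⟩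
  · exact Or.inl h
  · exact Or.inr ⟨a, A, fun j hj => h j (hY hj)⟩

/-- one step of the pigeonhole -/
lemma good_step (Φ : Fm n S) (U X : Finset (Fin n)) (c N : ℕ) (hc : Φ.occU U ≤ c)
    (hX : 2 ^ (2 * c) * N ≤ X.card) : ∃ Y ⊆ X, N ≤ Y.card ∧ Good Φ U Y := by
  classical
  rcases Nat.eq_zero_or_pos (Φ.occU U) with h0 | h0
  · refine ⟨X, Subset.refl _, le_trans ?_ hX, Or.inl h0⟩
    exact Nat.le_mul_of_pos_left _ (by positivity)
  · obtain ⟨a⟩ := exists_att U Φ h0
    let _ := a.fin
    let _ := a.dec
    have hcard : Fintype.card (Finset a.E) * N ≤ X.card := by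
      refine le_trans (Nat.mul_le_mul_right _ ?_) hX
      rw [Fintype.card_finset]
      refine Nat.pow_le_pow_right (by norm_num) ?_
      have := a.card_le
      omega
    obtain ⟨A, -, hA⟩ := exists_le_card_fiber_of_mul_le_card_of_maps_to (s := X)
      (t := (univ : Finset (Finset a.E))) (f := a.att) (fun _ _ => mem_univ _) univ_nonempty
      (n := N) (by rwa [card_univ])
    exact ⟨X.filter (fun j => a.att j = A), filter_subset _ _, hA,
      Or.inr ⟨a, A, fun j hj => (mem_filter.mp hj).2⟩⟩

/-- the number of variables which are needed -/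
def KK (k : ℕ) : ℕ → ℕ → ℕ
  | 0, _ => 0
  | h + 1, c => 2 ^ (2 * c) * (KK k h (c + k) + 1)

/-- the selected variables from the index `t` on -/
def tail {h : ℕ} (e : Fin h → Fin n) (t : ℕ) : Finset (Fin n) :=
  (univ.filter (fun i : Fin h => t ≤ i)).image e

/-- the selected variables before the index `t` -/
def head {h : ℕ} (e : Fin h → Fin n) (t : ℕ) : Finset (Fin n) :=
  (univ.filter (fun i : Fin h => (i : ℕ) < t)).image e

theorem select_aux (Φ : Fm n S) (k : ℕ) : ∀ (h c : ℕ) (U X : Finset (Fin n)), Disjoint U X →
    (∀ j ∈ X, Φ.occ j ≤ k) → Φ.occU U ≤ c → KK k h c ≤ X.card →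
    ∃ e : Fin h → Fin n, Function.Injective e ∧ (∀ i, e i ∈ X) ∧
      ∀ t ≤ h, Good Φ (U ∪ tail e t) (head e t) := by
  classical
  intro h
  induction h with
  | zero =>
    intro c U X _ _ _ _
    refine ⟨Fin.elim0, fun i => i.elim0, fun i => i.elim0, fun t _ => ?_⟩
    have h1 : head (n := n) (Fin.elim0 : Fin 0 → Fin n) t = ∅ := by
      unfold head
      simp
    rw [h1]
    rcases Nat.eq_zero_or_pos (Φ.occU (U ∪ tail (Fin.elim0 : Fin 0 → Fin n) t)) with h0 | h0
    · exact Or.inl h0
    · obtain ⟨a⟩ := exists_att _ Φ h0
      exact Or.inr ⟨a, ∅, fun j hj => absurd hj (notMem_empty j)⟩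
  | succ h ih =>
    intro c U X hUX hk hc hX
    obtain ⟨Y, hYX, hYc, hgood⟩ := good_step Φ U X c (KK k h (c + k) + 1) hc hX
    obtain ⟨j, hj⟩ : Y.Nonempty := by
      rw [← card_pos]
      omega
    have hjU : j ∉ U := fun hjU => disjoint_left.mp hUX hjU (hYX hj)
    obtain ⟨e, he, heY, hgood'⟩ := ih (c + k) (insert j U) (Y.erase j)
      (by
        rw [disjoint_left]
        intro x hx hx'
        rw [mem_erase] at hx'
        rcases mem_insert.mp hx with rfl | hx
        · exact hx'.1 rfl
        · exact disjoint_left.mp hUX hx (hYX hx'.2))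
      (fun i hi => hk i (hYX (mem_of_mem_erase hi)))
      (by
        rw [Fm.occU_eq, sum_insert hjU, ← Fm.occU_eq]
        have := hk j (hYX hj)
        omega)
      (by
        rw [card_erase_of_mem hj]
        omega)
    refine ⟨Fin.snoc e j, ?_, ?_, ?_⟩
    · intro a b hab
      induction a using Fin.lastCases with
      | last =>
        induction b using Fin.lastCases with
        | last => rfl
        | cast b =>
          rw [Fin.snoc_last, Fin.snoc_castSucc] at hab
          exact absurd hab.symm (ne_of_mem_erase (heY b))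
      | cast a =>
        induction b using Fin.lastCases with
        | last =>
          rw [Fin.snoc_last, Fin.snoc_castSucc] at hab
          exact absurd hab (ne_of_mem_erase (heY a))
        | cast b =>
          rw [Fin.snoc_castSucc, Fin.snoc_castSucc] at hab
          rw [he hab]
    · intro i
      induction i using Fin.lastCases with
      | last => rw [Fin.snoc_last]; exact hYX hj
      | cast i => rw [Fin.snoc_castSucc]; exact hYX (mem_of_mem_erase (heY i))
    · intro t ht
      rcases Nat.lt_or_ge h t with hth | hth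
      · -- `t = h + 1`
        have h1 : tail (Fin.snoc e j : Fin (h + 1) → Fin n) t = ∅ := by
          unfold tail
          rw [image_eq_empty, filter_eq_empty_iff]
          intro i _ hi
          have := i.2
          omega
        rw [h1, union_empty]
        refine hgood.mono ?_
        intro x hx
        unfold head at hx
        rw [mem_image] at hx
        obtain ⟨i, -, rfl⟩ := hx
        induction i using Fin.lastCases with
        | last => rw [Fin.snoc_last]; exact hj
        | cast i => rw [Fin.snoc_castSucc]; exact mem_of_mem_erase (heY i)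
      · have h1 : U ∪ tail (Fin.snoc e j : Fin (h + 1) → Fin n) t = insert j U ∪ tail e t := by
          ext x
          simp only [mem_union, mem_insert, tail, mem_image, mem_filter, mem_univ, true_and]
          constructor
          · rintro (hx | ⟨i, hi, rfl⟩)
            · exact Or.inl (Or.inr hx)
            · induction i using Fin.lastCases with
              | last => rw [Fin.snoc_last]; exact Or.inl (Or.inl rfl)
              | cast i =>
                rw [Fin.snoc_castSucc]
                exact Or.inr ⟨i, by simpa using hi, rfl⟩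
          · rintro ((rfl | hx) | ⟨i, hi, rfl⟩)
            · exact Or.inr ⟨Fin.last h, by simpa using hth, by rw [Fin.snoc_last]⟩
            · exact Or.inl hx
            · exact Or.inr ⟨i.castSucc, by simpa using hi, by rw [Fin.snoc_castSucc]⟩
        rw [h1]
        refine (hgood' t hth).mono ?_
        intro x hx
        unfold head at hx ⊢
        rw [mem_image] at hx ⊢
        obtain ⟨i, hi, rfl⟩ := hx
        rw [mem_filter] at hi
        induction i using Fin.lastCases with
        | last =>
          have h2 := hi.2
          rw [Fin.val_last] at h2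
          omega
        | cast i =>
          refine ⟨i, ?_, by rw [Fin.snoc_castSucc]⟩
          rw [mem_filter]
          exact ⟨mem_univ _, by simpa using hi.2⟩

/-- Selection. -/
theorem select (Φ : Fm n S) (k h : ℕ) (X : Finset (Fin n)) (hk : ∀ j ∈ X, Φ.occ j ≤ k)
    (hX : KK k h 0 ≤ X.card) :
    ∃ e : Fin h → Fin n, Function.Injective e ∧ (∀ i, e i ∈ X) ∧
      ∀ t ≤ h, Good Φ (tail e t) (head e t) := by
  obtain ⟨e, he, heX, hg⟩ := select_aux Φ k h 0 ∅ X (disjoint_empty_left _) hk
    (by rw [Fm.occU_eq]; simp) hX
  refine ⟨e, he, heX, fun t ht => ?_⟩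
  have := hg t ht
  rwa [empty_union] at this

end Pool.Agent.Lib.MP_53850c_co.LF
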