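import Pool.Agent.Lib.MP_53850c_co.BW.Defs
import Pool.Agent.Lib.MP_53850c_co.LF.Select

section
/-!
# Few classes of prefixes give a read-once program of small width
-/
set_option autoImplicit false

namespace Pool.Agent.Lib.MP_53850c_co.LF

open Finset Pool.Agent.Lib.MP_53850c_co.BW

/-- the word which is `x` on the first `t` coordinates and `z` on the others -/
def mix {h : ℕ} (t : ℕ) (x z : Fin h → Option Bool) : Fin h → Option Bool :=
  fun i => if (i : ℕ) < t then x i else z i

/-- **Myhill–Nerode for words of fixed length.** If for each `t ≤ h` the words have `w` classes such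
that words of one class have interchangeable prefixes of length `t`, then a read-once program of
width `w` computes `f`. -/
theorem nerode {h w : ℕ} (f : (Fin h → Option Bool) → Bool) (c : ℕ → (Fin h → Option Bool) → Fin w)
    (hc : ∀ t ≤ h, ∀ x x' : Fin h → Option Bool, c t x = c t x' →
      ∀ z, f (mix t x z) = f (mix t x' z)) :
    ∃ P : Prog h w, ∀ u, P.Accepts u ↔ f u = true := by
  classical
  let x₀ : Fin h → Option Bool := fun _ => none
  obtain ⟨rep, hrep⟩ : ∃ rep : ℕ → Fin w → (Fin h → Option Bool), ∀ t q, (∃ x, c t x = q) →
      c t (rep t q) = q := by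
    refine ⟨fun t q => if hx : ∃ x, c t x = q then hx.choose else x₀, fun t q hx => ?_⟩
    simp only [dif_pos hx]
    exact hx.choose_spec
  let P : Prog h w :=
    { start := c 0 x₀
      step := fun i a q => c (i + 1) (Function.update (rep i q) i a)
      acc := fun q => f (rep h q) }
  refine ⟨P, fun u => ?_⟩
  have key : ∀ t ≤ h, ∃ x, c t x = ((List.finRange h).take t).foldl (fun q i => P.step i (u i) q)
      P.start ∧ ∀ z, f (mix t x z) = f (mix t u z) := by
    intro t
    induction t with
    | zero =>
      intro _
      refine ⟨x₀, rfl, fun z => ?_⟩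
      congr 1
    | succ t ih =>
      intro ht
      obtain ⟨x, hx, hfx⟩ := ih (by omega)
      have hlt : t < h := by omega
      have e1 : (List.finRange h).take (t + 1) = (List.finRange h).take t ++ [⟨t, hlt⟩] := by
        rw [List.take_add_one]
        simp [hlt]
      rw [e1, List.foldl_append, ← hx]
      set y := rep t (c t x) with hy
      have hcy : c t y = c t x := hrep t _ ⟨x, rfl⟩
      refine ⟨Function.update y ⟨t, hlt⟩ (u ⟨t, hlt⟩), rfl, fun z => ?_⟩
      -- replace `z` at position `t` by `u t`
      set z' : Fin h → Option Bool := Function.update z ⟨t, hlt⟩ (u ⟨t, hlt⟩) with hz'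
      have h1 : mix (t + 1) (Function.update y ⟨t, hlt⟩ (u ⟨t, hlt⟩)) z = mix t y z' := by
        funext i
        unfold mix
        by_cases hi : i = ⟨t, hlt⟩
        · subst hi
          simp [hz']
        · have hi' : (i : ℕ) ≠ t := fun h' => hi (Fin.ext h')
          by_cases h2 : (i : ℕ) < t
          · rw [if_pos (by omega), if_pos h2, Function.update_of_ne hi]
          · rw [if_neg (by omega), if_neg h2, hz', Function.update_of_ne hi]
      have h2 : mix (t + 1) u z = mix t u z' := by
        funext i
        unfold mix
        by_cases hi : i = ⟨t, hlt⟩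
        · subst hi
          simp [hz']
        · have hi' : (i : ℕ) ≠ t := fun h' => hi (Fin.ext h')
          by_cases h2 : (i : ℕ) < t
          · rw [if_pos (by omega), if_pos h2]
          · rw [if_neg (by omega), if_neg h2, hz', Function.update_of_ne hi]
      rw [h1, h2, hc t (by omega) y x hcy z', hfx z']
  obtain ⟨x, hx, hfx⟩ := key h le_rfl
  have e2 : (List.finRange h).take h = List.finRange h :=
    List.take_of_length_le (by simp)
  rw [e2] at hx
  have hfull : ∀ a z : Fin h → Option Bool, mix h a z = a := fun a z => by
    funext i
    simp [mix]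
  have h3 : f x = f u := by
    have := hfx u
    rwa [hfull, hfull] at this
  have h4 : c h (rep h (c h x)) = c h x := hrep h _ ⟨x, rfl⟩
  have h5 : f (rep h (c h x)) = f x := by
    have := hc h le_rfl _ _ h4 u
    rwa [hfull, hfull] at this
  unfold Prog.Accepts Prog.run
  rw [← hx]
  change f (rep h (c h x)) = true ↔ _
  rw [h5, h3]

end Pool.Agent.Lib.MP_53850c_co.LF
end

section
/-!
# The number of Myhill–Nerode classes of a restricted formula
-/
namespace Pool.Agent.Lib.MP_53850c_co.LF

open Finset

variable {n : ℕ} {S : Type}

lemma exists_code {X T : Type*} [Fintype T] (g : X → T) (w : ℕ) (hw : Fintype.card T ≤ w) :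
    ∃ c : X → Fin w, ∀ x x', c x = c x' → g x = g x' := by
  refine ⟨fun x => Fin.castLE hw (Fintype.equivFin T (g x)), fun x x' h => ?_⟩
  have h1 := Fin.castLE_injective hw h
  exact (Fintype.equivFin T).injective h1

/-- the width of the programs -/
def wid (s k : ℕ) : ℕ := (s ^ s) ^ k + s + 1

theorem exists_class [Fintype S] (Φ : Fm n S) (k : ℕ) {h : ℕ} (e : Fin h → Fin n)
    (he : Function.Injective e) (y : Fin n → Option Bool) (hk : ∀ i, Φ.occ (e i) ≤ k) (t : ℕ)
    (hg : Good Φ (tail e t) (head e t)) :
    ∃ c : (Fin h → Option Bool) → Fin (wid (Fintype.card S) k), ∀ x x', c x = c x' →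
      ∀ z, Φ.eval (Function.extend e (mix t x z) y) = Φ.eval (Function.extend e (mix t x' z) y) := by
  classical
  have hext : ∀ (v : Fin h → Option Bool) (i : Fin h), Function.extend e v y (e i) = v i :=
    fun v i => he.extend_apply v y i
  have hext' : ∀ (v : Fin h → Option Bool) (j : Fin n), (¬ ∃ i, e i = j) →
      Function.extend e v y j = y j := fun v j hj => Function.extend_apply' _ _ _ hj
  -- two extended words which agree outside a part of the tail
  have hagree : ∀ (v v' : Fin h → Option Bool) (j : Fin n), j ∉ tail e t →
      (∀ i : Fin h, (i : ℕ) < t → e i = j → v i = v' i) →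
      Function.extend e v y j = Function.extend e v' y j := by
    intro v v' j hj hv
    by_cases hj' : ∃ i, e i = j
    · obtain ⟨i, rfl⟩ := hj'
      rw [hext, hext]
      refine hv i ?_ rfl
      by_contra hi
      apply hj
      unfold tail
      rw [mem_image]
      exact ⟨i, by rw [mem_filter]; exact ⟨mem_univ _, by omega⟩, rfl⟩
    · rw [hext' _ _ hj', hext' _ _ hj']
  rcases hg with h0 | ⟨a, A, hA⟩
  · -- no leaf with variable in the tail
    obtain ⟨c, hc⟩ := exists_code (fun x : Fin h → Option Bool => Φ.eval (Function.extend e x y))
      (wid (Fintype.card S) k) (by unfold wid; omega)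
    refine ⟨c, fun x x' hxx z => ?_⟩
    have key : ∀ x, Φ.eval (Function.extend e (mix t x z) y) = Φ.eval (Function.extend e x y) := by
      intro x
      refine Φ.eval_congr fun j hj => ?_
      have hj' : j ∉ tail e t := fun hj' => by
        rw [Fm.occ_eq_zero h0 hj'] at hj
        exact lt_irrefl _ hj
      refine hagree _ _ j hj' fun i hi _ => ?_
      unfold mix
      rw [if_pos hi]
    rw [key, key]
    exact hc x x' hxx
  · let _ := a.fin
    let _ := a.dec
    rcases Nat.eq_zero_or_pos t with rfl | ht
    · refine ⟨fun _ => ⟨0, by unfold wid; omega⟩, fun x x' _ z => ?_⟩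
      have : mix 0 x z = mix 0 x' z := by
        funext i
        unfold mix
        rw [if_neg (Nat.not_lt_zero _), if_neg (Nat.not_lt_zero _)]
      rw [this]
    · rcases Nat.eq_zero_or_pos h with rfl | hh
      · refine ⟨fun _ => ⟨0, by unfold wid; omega⟩, fun x x' _ z => ?_⟩
        have : mix t x z = mix t x' z := by
          funext i
          exact i.elim0
        rw [this]
      have hAk : A.card ≤ k := by
        have h1 : e ⟨0, hh⟩ ∈ head e t := by
          unfold head
          rw [mem_image]
          exact ⟨⟨0, hh⟩, by rw [mem_filter]; exact ⟨mem_univ _, ht⟩, rfl⟩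
        have h2 := a.att_le (e ⟨0, hh⟩)
        rw [hA _ h1] at h2
        exact h2.trans (hk _)
      obtain ⟨c, hc⟩ := exists_code
        (fun (x : Fin h → Option Bool) (e' : A) => a.π (Function.extend e x y) e')
        (wid (Fintype.card S) k) (by
          have h1 : Fintype.card (A → S → S) = (Fintype.card S ^ Fintype.card S) ^ A.card := by
            rw [Fintype.card_fun, Fintype.card_fun, Fintype.card_coe]
          rw [h1]
          unfold wid
          rcases Nat.eq_zero_or_pos (Fintype.card S) with hs | hs
          · rw [hs]
            simp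
          · have : (Fintype.card S ^ Fintype.card S) ^ A.card
                ≤ (Fintype.card S ^ Fintype.card S) ^ k :=
              Nat.pow_le_pow_right (by positivity) hAk
            omega)
      refine ⟨c, fun x x' hxx z => ?_⟩
      have hcx := hc x x' hxx
      have hπ : a.π (Function.extend e (mix t x z) y) = a.π (Function.extend e (mix t x' z) y) := by
        funext e'
        by_cases he' : e' ∈ A
        · have h1 := congrFun hcx ⟨e', he'⟩
          simp only at h1
          have h2 : ∀ x : Fin h → Option Bool, a.π (Function.extend e (mix t x z) y) e'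
              = a.π (Function.extend e x y) e' := by
            intro x
            refine a.π_dep _ _ _ fun j hj => ?_
            have hj' : j ∉ tail e t := fun hj' => by
              rw [a.att_U j hj'] at hj
              exact notMem_empty _ hj
            refine hagree _ _ j hj' fun i hi _ => ?_
            unfold mix
            rw [if_pos hi]
          rw [h2, h2, h1]
        · refine a.π_dep _ _ _ fun j hj => ?_
          have hj' : j ∉ tail e t := fun hj' => by
            rw [a.att_U j hj'] at hj
            exact notMem_empty _ hj
          refine hagree _ _ j hj' fun i hi hij => ?_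
          exfalso
          apply he'
          rw [← hA j ?_]
          · exact hj
          · rw [← hij]
            unfold head
            rw [mem_image]
            exact ⟨i, by rw [mem_filter]; exact ⟨mem_univ _, hi⟩, rfl⟩
      rw [a.eval_eq, a.eval_eq, hπ]
      congr 1
      refine a.Θ_dep _ _ _ _ (fun _ _ => rfl) fun j hj => ?_
      unfold tail at hj
      rw [mem_image] at hj
      obtain ⟨i, hi, rfl⟩ := hj
      rw [mem_filter] at hi
      rw [hext, hext]
      unfold mix
      rw [if_neg (by omega), if_neg (by omega)]

/-- **Restricted formulas are programs of bounded width.** Among `KK k h 0` variables with at most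
`k` leaves each there are `h` variables such that each restriction of the formula to them is
recognised by a program of width `wid |S| k`. -/
theorem program_exists [Fintype S] (Φ : Fm n S) (k h : ℕ) (X : Finset (Fin n))
    (hk : ∀ j ∈ X, Φ.occ j ≤ k) (hX : KK k h 0 ≤ X.card) :
    ∃ e : Fin h → Fin n, Function.Injective e ∧ (∀ i, e i ∈ X) ∧
      ∀ (y : Fin n → Option Bool) (acc : S → Bool), ∃ P : BW.Prog h (wid (Fintype.card S) k),
        ∀ v, P.Accepts v ↔ acc (Φ.eval (Function.extend e v y)) = true := by
  obtain ⟨e, he, heX, hg⟩ := select Φ k h X hk hX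
  refine ⟨e, he, heX, fun y acc => ?_⟩
  have hcl : ∀ t, ∃ c : (Fin h → Option Bool) → Fin (wid (Fintype.card S) k), t ≤ h →
      ∀ x x', c x = c x' → ∀ z, Φ.eval (Function.extend e (mix t x z) y)
        = Φ.eval (Function.extend e (mix t x' z) y) := by
    intro t
    rcases Nat.lt_or_ge h t with ht | ht
    · exact ⟨fun _ => ⟨0, by unfold wid; omega⟩, fun h' => absurd ht (by omega)⟩
    · obtain ⟨c, hc⟩ := exists_class Φ k e he y (fun i => hk _ (heX i)) t (hg t ht)
      exact ⟨c, fun _ => hc⟩
  choose c hc using hcl
  exact nerode (fun v => acc (Φ.eval (Function.extend e v y))) c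
    (fun t ht x x' hxx z => by rw [hc t ht x x' hxx z])

end Pool.Agent.Lib.MP_53850c_co.LF
end
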