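import Pool.Agent.Lib.MP_53850c_co.LF.Formula
import Pool.Agent.Lib.MP_53850c_co.BW.Dich
import Pool.Agent.Lib.MP_53850c_co.BW.Side

/-!
# Read-once programs are formulas with one leaf for each letter
-/

set_option autoImplicit false

namespace Pool.Agent.Lib.MP_53850c_co.LF

open Finset Pool.Agent.Lib.MP_53850c_co.BW

variable {n w : ℕ}

/-! ### Change of alphabet -/

/-- the same formula over another alphabet -/
def Fm.map {S S' : Type} (e : S → S') (r : S' → S) : Fm n S → Fm n S'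
  | .leaf i f => .leaf i fun o => e (f o)
  | .gate g a b => .gate (fun x y => e (g (r x) (r y))) (a.map e r) (b.map e r)

lemma Fm.eval_map {S S' : Type} {e : S → S'} {r : S' → S} (h : ∀ x, r (e x) = x) (Φ : Fm n S)
    (u : Fin n → Option Bool) : (Φ.map e r).eval u = e (Φ.eval u) := by
  induction Φ with
  | leaf i f => rfl
  | gate g a b iha ihb => simp only [Fm.map, Fm.eval, iha, ihb, h]

lemma Fm.occ_map {S S' : Type} {e : S → S'} {r : S' → S} (Φ : Fm n S) (j : Fin n) :
    (Φ.map e r).occ j = Φ.occ j := by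
  induction Φ with
  | leaf i f => rfl
  | gate g a b iha ihb => simp only [Fm.map, Fm.occ, iha, ihb]

/-! ### Programs -/

/-- `{0, 1, *}` as three letters of `Fin w` -/
def enc (hw : 3 ≤ w) : Option Bool → Fin w
  | none => ⟨0, by omega⟩
  | some false => ⟨1, by omega⟩
  | some true => ⟨2, by omega⟩

lemma enc_injective (hw : 3 ≤ w) : Function.Injective (enc hw) := by
  intro a b h
  rcases a with _ | _ | _ <;> rcases b with _ | _ | _ <;> simp_all [enc]

lemma exists_dec (hw : 3 ≤ w) : ∃ dec : Fin w → Option Bool, ∀ o, dec (enc hw o) = o :=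
  (enc_injective hw).hasLeftInverse

/-- read the letters `σ i`, `i ∈ L`, one after the other -/
def build (hw : 3 ≤ w) (dec : Fin w → Option Bool) (P : Prog n w) (σ : Equiv.Perm (Fin n))
    (Φ : Fm n (Fin w)) (L : List (Fin n)) : Fm n (Fin w) :=
  L.foldl (fun Φ i => .gate (fun q c => P.step i (dec c) q) Φ (.leaf (σ i) (enc hw))) Φ

lemma eval_build (hw : 3 ≤ w) {dec : Fin w → Option Bool} (hdec : ∀ o, dec (enc hw o) = o)
    (P : Prog n w) (σ : Equiv.Perm (Fin n)) (u : Fin n → Option Bool) (L : List (Fin n)) :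
    ∀ Φ : Fm n (Fin w), (build hw dec P σ Φ L).eval u
      = L.foldl (fun q i => P.step i ((u ∘ σ) i) q) (Φ.eval u) := by
  induction L with
  | nil => intro Φ; rfl
  | cons i L ih =>
    intro Φ
    rw [build, List.foldl_cons, List.foldl_cons]
    refine (ih _).trans ?_
    simp only [Fm.eval, hdec, Function.comp]

lemma occ_build (hw : 3 ≤ w) (dec : Fin w → Option Bool) (P : Prog n w)
    (σ : Equiv.Perm (Fin n)) (j : Fin n) (L : List (Fin n)) :
    ∀ Φ : Fm n (Fin w), (build hw dec P σ Φ L).occ j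
      = Φ.occ j + L.countP (fun i => σ i = j) := by
  induction L with
  | nil => intro Φ; rfl
  | cons i L ih =>
    intro Φ
    rw [build, List.foldl_cons, List.countP_cons]
    refine (ih _).trans ?_
    simp only [Fm.occ]
    by_cases h : σ i = j <;> simp [h] <;> omega

/-- Every read-once program of width `w ≥ 3`, read in any order `σ`, is a formula over the alphabet
`Fin w` in which each letter is read exactly once. -/
theorem exists_formula (hw : 3 ≤ w) (hn : 1 ≤ n) (P : Prog n w) (σ : Equiv.Perm (Fin n)) :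
    ∃ Φ : Fm n (Fin w), (∀ j, Φ.occ j = 1) ∧ ∀ u, Φ.eval u = P.run (u ∘ σ) := by
  classical
  obtain ⟨dec, hdec⟩ := exists_dec hw
  obtain ⟨m, rfl⟩ : ∃ m, n = m + 1 := ⟨n - 1, by omega⟩
  obtain ⟨i₀, L, hL⟩ : ∃ (i₀ : Fin (m + 1)) (L : List (Fin (m + 1))),
      List.finRange (m + 1) = i₀ :: L := ⟨_, _, List.finRange_succ⟩
  refine ⟨build hw dec P σ (.leaf (σ i₀) fun o => P.step i₀ o P.start) L, fun j => ?_,
    fun u => ?_⟩
  · rw [occ_build]
    have h1 : (List.finRange (m + 1)).countP (fun i => σ i = j) = 1 := by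
      rw [AKS.countP_eq_card (List.nodup_finRange _) (fun i => σ i = j) (fun _ => True)
        (fun i => by simp), card_eq_one]
      refine ⟨σ.symm j, ?_⟩
      ext i
      simp [Equiv.eq_symm_apply]
    rw [hL, List.countP_cons] at h1
    simp only [Fm.occ]
    by_cases h : σ i₀ = j
    · simp only [h, decide_true, if_true] at h1 ⊢
      omega
    · simp only [h, decide_false, if_false] at h1 ⊢
      simpa using h1
  · rw [eval_build hw hdec, Prog.run, hL, List.foldl_cons]
    rfl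

lemma size_of_occ {S : Type} {Φ : Fm n S} (h : ∀ j, Φ.occ j = 1) : Φ.size = n := by
  rw [Fm.size_eq, sum_congr rfl (fun j _ => h j)]
  simp

/-- The same over any alphabet with at least `w` letters. -/
theorem exists_formula' {S : Type} [Finite S] (hw : 3 ≤ w) (hS : w ≤ Nat.card S) (hn : 1 ≤ n)
    (P : Prog n w) (σ : Equiv.Perm (Fin n)) : ∃ (Φ : Fm n S) (acc : S → Bool),
      (∀ j, Φ.occ j = 1) ∧ ∀ u, acc (Φ.eval u) = true ↔ P.Accepts (u ∘ σ) := by
  classical
  obtain ⟨Φ, h1, h2⟩ := exists_formula hw hn P σ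
  have : Fintype S := Fintype.ofFinite S
  obtain ⟨e⟩ : Nonempty (Fin w ↪ S) := by
    refine Function.Embedding.nonempty_of_card_le ?_
    rw [Fintype.card_fin, ← Nat.card_eq_fintype_card]
    exact hS
  have : Nonempty (Fin w) := ⟨⟨0, by omega⟩⟩
  obtain ⟨r, hr⟩ : ∃ r : S → Fin w, ∀ x, r (e x) = x := e.injective.hasLeftInverse
  refine ⟨Φ.map e r, fun x => P.acc (r x), fun j => by rw [Fm.occ_map, h1], fun u => ?_⟩
  rw [Fm.eval_map hr]
  simp only [hr, h2]
  exact Iff.rfl

/-! ### The Alon-Krech-Szabo sets -/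

/-- edges -/
theorem aks_edges {S : Type} [Finite S] (d n : ℕ) (hd : 1 ≤ d) (hn : 1 ≤ n)
    (hS : d + 2 ≤ Nat.card S) : ∃ (Φ : Fm n S) (acc : S → Bool), (∀ j, Φ.occ j = 1) ∧
      (∀ c : Fin n → Option Bool, dim c = d →
        ∃ u, dim u = 1 ∧ Sub u c ∧ acc (Φ.eval u) = true) ∧
      B d * (univ.filter fun u : Fin n → Option Bool => dim u = 1 ∧ acc (Φ.eval u) = true).card
        ≤ n * 2 ^ (n - 1) := by
  classical
  obtain ⟨P, hP, hs⟩ := AKS.specAKS d n hd
  obtain ⟨Φ, acc, h1, h2⟩ := exists_formula' (S := S) (by omega) hS hn P (Equiv.refl _)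
  have h3 : ∀ u : Fin n → Option Bool, acc (Φ.eval u) = true ↔ P.Accepts u := h2
  refine ⟨Φ, acc, h1, fun c hc => ?_, ?_⟩
  · obtain ⟨u, hu1, hu2, hu3⟩ := hP c hc
    exact ⟨u, hu1, hu2, (h3 u).mpr hu3⟩
  · have h4 : (univ.filter fun u : Fin n → Option Bool => dim u = 1 ∧ acc (Φ.eval u) = true)
        = univ.filter fun u => dim u = 1 ∧ P.Accepts u := by
      refine filter_congr fun u _ => ?_
      rw [h3]
    rw [h4]
    exact hs

/-- vertices -/
theorem aks_vertices {S : Type} [Finite S] (d n : ℕ) (hn : 1 ≤ n)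
    (hS : d + 2 ≤ Nat.card S) (hd : 1 ≤ d) : ∃ (Φ : Fm n S) (acc : S → Bool),
      (∀ j, Φ.occ j = 1) ∧
      (∀ c : Fin n → Option Bool, dim c = d →
        ∃ u, dim u = 0 ∧ Sub u c ∧ acc (Φ.eval u) = true) ∧
      (d + 1) * (univ.filter fun u : Fin n → Option Bool =>
        dim u = 0 ∧ acc (Φ.eval u) = true).card ≤ 2 ^ n := by
  classical
  obtain ⟨P₀, hP₀, hs⟩ := AKS.specAKS0 d n
  set P : Prog n (d + 2) := P₀.widen (by omega) with hPdef
  have hacc : ∀ u, P.Accepts u ↔ P₀.Accepts u := accepts_widen P₀ (by omega)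
  obtain ⟨Φ, acc, h1, h2⟩ := exists_formula' (S := S) (by omega) hS hn P (Equiv.refl _)
  have h3 : ∀ u : Fin n → Option Bool, acc (Φ.eval u) = true ↔ P₀.Accepts u := fun u =>
    (h2 u).trans (hacc _)
  refine ⟨Φ, acc, h1, fun c hc => ?_, ?_⟩
  · obtain ⟨u, hu1, hu2, hu3⟩ := hP₀ c hc
    exact ⟨u, hu1, hu2, (h3 u).mpr hu3⟩
  · have h4 : (univ.filter fun u : Fin n → Option Bool => dim u = 0 ∧ acc (Φ.eval u) = true)
        = univ.filter fun u => dim u = 0 ∧ P₀.Accepts u := by
      refine filter_congr fun u _ => ?_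
      rw [h3]
    rw [h4]
    exact hs

end Pool.Agent.Lib.MP_53850c_co.LF
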