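import Pool.Agent.Lib.MP_53850c_co.BW.Defs

/-!
# Formulas over a finite alphabet and the attachment lemma

Let `U` be a set of variables (the unknown ones).  The leaves with variable in `U` span a subtree; all other
leaves are attached to the edges of this subtree.  The value of the formula is a function of the
unknown variables and of one map `S → S` for each edge.
-/

namespace Pool.Agent.Lib.MP_53850c_co.LF

open Finset

/-- A formula over the alphabet `S`; a leaf reads one letter of the word `u ∈ {0, 1, *}^n`, a gate is
any binary operation. -/
inductive Fm (n : ℕ) (S : Type) : Type
  | leaf (i : Fin n) (f : Option Bool → S) : Fm n S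
  | gate (g : S → S → S) (l r : Fm n S) : Fm n S

namespace Fm

variable {n : ℕ} {S : Type}

/-- the value at the word `u` -/
def eval : Fm n S → (Fin n → Option Bool) → S
  | leaf i f, u => f (u i)
  | gate g l r, u => g (l.eval u) (r.eval u)

/-- the number of leaves -/
def size : Fm n S → ℕ
  | leaf _ _ => 1
  | gate _ l r => l.size + r.size

/-- the number of leaves which read the letter `j` -/
def occ (j : Fin n) : Fm n S → ℕ
  | leaf i _ => if i = j then 1 else 0
  | gate _ l r => l.occ j + r.occ j

/-- the number of leaves which read a letter in `U` -/
def occU (U : Finset (Fin n)) : Fm n S → ℕ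
  | leaf i _ => if i ∈ U then 1 else 0
  | gate _ l r => l.occU U + r.occU U

lemma occU_eq (U : Finset (Fin n)) (Φ : Fm n S) : Φ.occU U = ∑ j ∈ U, Φ.occ j := by
  induction Φ with
  | leaf i f => simp [occU, occ]
  | gate g l r ihl ihr => simp only [occU, occ, ihl, ihr, sum_add_distrib]

lemma size_eq (Φ : Fm n S) : Φ.size = ∑ j, Φ.occ j := by
  induction Φ with
  | leaf i f => simp [size, occ]
  | gate g l r ihl ihr => simp only [size, occ, ihl, ihr, sum_add_distrib]

/-- the value depends on the letters which are read -/
lemma eval_congr (Φ : Fm n S) {x x' : Fin n → Option Bool} (h : ∀ j, 0 < Φ.occ j → x j = x' j) :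
    Φ.eval x = Φ.eval x' := by
  induction Φ with
  | leaf i f =>
    have := h i (by simp [occ])
    simp only [eval, this]
  | gate g l r ihl ihr =>
    simp only [eval]
    rw [ihl fun j hj => h j (by simp only [occ]; omega),
      ihr fun j hj => h j (by simp only [occ]; omega)]

lemma occ_eq_zero {Φ : Fm n S} {U : Finset (Fin n)} (h : Φ.occU U = 0) {j : Fin n} (hj : j ∈ U) :
    Φ.occ j = 0 := by
  rw [occU_eq, sum_eq_zero_iff] at h
  exact h j hj

end Fm

/-- The edges of the subtree spanned by the leaves with variable in `U`; `att j` is the set of edges
to which the leaves with variable `j` are attached, `π x e` is the map on the edge `e`. -/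
structure Att {n : ℕ} {S : Type} (Φ : Fm n S) (U : Finset (Fin n)) where
  E : Type
  fin : Fintype E
  dec : DecidableEq E
  top : E
  att : Fin n → Finset E
  π : (Fin n → Option Bool) → E → S → S
  Θ : (E → S → S) → (Fin n → Option Bool) → S
  card_le : Fintype.card E + 1 ≤ 2 * Φ.occU U
  att_le : ∀ j, (att j).card ≤ Φ.occ j
  att_U : ∀ j ∈ U, att j = ∅
  eval_eq : ∀ x, Φ.eval x = π x top (Θ (π x) x)
  π_dep : ∀ x x' e, (∀ j, e ∈ att j → x j = x' j) → π x e = π x' e
  Θ_dep : ∀ ρ ρ' x x', (∀ e, e ≠ top → ρ e = ρ' e) → (∀ j ∈ U, x j = x' j) → Θ ρ x = Θ ρ' x'

variable {n : ℕ} {S : Type}

theorem exists_att (U : Finset (Fin n)) (Φ : Fm n S) (h : 0 < Φ.occU U) : Nonempty (Att Φ U) := by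
  classical
  induction Φ with
  | leaf i f =>
    have hi : i ∈ U := by
      by_contra hi
      simp [Fm.occU, hi] at h
    exact ⟨{
      E := Unit
      fin := inferInstance
      dec := inferInstance
      top := ()
      att := fun _ => ∅
      π := fun _ _ => id
      Θ := fun _ x => f (x i)
      card_le := by simp [Fm.occU, hi]
      att_le := fun j => by simp
      att_U := fun j _ => rfl
      eval_eq := fun x => rfl
      π_dep := fun x x' e _ => rfl
      Θ_dep := fun ρ ρ' x x' _ hx => by simp only [hx i hi] }⟩
  | gate g l r ihl ihr =>
    rcases Nat.eq_zero_or_pos (l.occU U) with hl | hl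
    · -- only the right child is unknown
      have hr : 0 < r.occU U := by simp only [Fm.occU] at h; omega
      obtain ⟨a⟩ := ihr hr
      let _ := a.fin
      let _ := a.dec
      exact ⟨{
        E := a.E
        fin := a.fin
        dec := a.dec
        top := a.top
        att := fun j => a.att j ∪ (if 0 < l.occ j then {a.top} else ∅)
        π := fun x e => if e = a.top then (fun z => g (l.eval x) (a.π x a.top z)) else a.π x e
        Θ := a.Θ
        card_le := by
          have := a.card_le
          simp only [Fm.occU]
          omega
        att_le := fun j => by
          have h1 := a.att_le j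
          have h2 := card_union_le (a.att j) (if 0 < l.occ j then {a.top} else ∅)
          have h3 : (if 0 < l.occ j then ({a.top} : Finset a.E) else ∅).card ≤ l.occ j := by
            split
            · rw [card_singleton]; assumption
            · simp
          simp only [Fm.occ]
          omega
        att_U := fun j hj => by
          rw [a.att_U j hj, if_neg (by rw [Fm.occ_eq_zero hl hj]; exact lt_irrefl 0)]
          simp
        eval_eq := fun x => by
          simp only [Fm.eval, if_pos]
          rw [a.eval_eq x]
          congr 2
          refine a.Θ_dep _ _ _ _ (fun e he => ?_) (fun _ _ => rfl)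
          rw [if_neg he]
        π_dep := fun x x' e he => by
          have h1 := a.π_dep x x' e (fun j hj => he j (mem_union_left _ hj))
          by_cases hte : e = a.top
          · subst hte
            simp only [if_pos]
            rw [h1, l.eval_congr (x := x) (x' := x') fun j hj => he j (mem_union_right _ (by
              rw [if_pos hj]; exact mem_singleton_self _))]
          · simp only [if_neg hte]
            exact h1
        Θ_dep := a.Θ_dep }⟩
    · rcases Nat.eq_zero_or_pos (r.occU U) with hr | hr
      · obtain ⟨a⟩ := ihl hl
        let _ := a.fin
        let _ := a.dec
        exact ⟨{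
          E := a.E
          fin := a.fin
          dec := a.dec
          top := a.top
          att := fun j => a.att j ∪ (if 0 < r.occ j then {a.top} else ∅)
          π := fun x e => if e = a.top then (fun z => g (a.π x a.top z) (r.eval x)) else a.π x e
          Θ := a.Θ
          card_le := by
            have := a.card_le
            simp only [Fm.occU]
            omega
          att_le := fun j => by
            have h1 := a.att_le j
            have h2 := card_union_le (a.att j) (if 0 < r.occ j then {a.top} else ∅)
            have h3 : (if 0 < r.occ j then ({a.top} : Finset a.E) else ∅).card ≤ r.occ j := by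
              split
              · rw [card_singleton]; assumption
              · simp
            simp only [Fm.occ]
            omega
          att_U := fun j hj => by
            rw [a.att_U j hj, if_neg (by rw [Fm.occ_eq_zero hr hj]; exact lt_irrefl 0)]
            simp
          eval_eq := fun x => by
            simp only [Fm.eval, if_pos]
            rw [a.eval_eq x]
            congr 2
            refine a.Θ_dep _ _ _ _ (fun e he => ?_) (fun _ _ => rfl)
            rw [if_neg he]
          π_dep := fun x x' e he => by
            have h1 := a.π_dep x x' e (fun j hj => he j (mem_union_left _ hj))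
            by_cases hte : e = a.top
            · subst hte
              simp only [if_pos]
              rw [h1, r.eval_congr (x := x) (x' := x') fun j hj => he j (mem_union_right _ (by
                rw [if_pos hj]; exact mem_singleton_self _))]
            · simp only [if_neg hte]
              exact h1
          Θ_dep := a.Θ_dep }⟩
      · obtain ⟨a⟩ := ihl hl
        obtain ⟨b⟩ := ihr hr
        let _ := a.fin
        let _ := a.dec
        let _ := b.fin
        let _ := b.dec
        exact ⟨{
          E := Option (a.E ⊕ b.E)
          fin := inferInstance
          dec := inferInstance
          top := none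
          att := fun j => ((a.att j).map ⟨fun e => some (Sum.inl e), fun _ _ h => by
              simpa using h⟩) ∪ ((b.att j).map ⟨fun e => some (Sum.inr e), fun _ _ h => by
              simpa using h⟩)
          π := fun x e => match e with
            | none => id
            | some (Sum.inl e) => a.π x e
            | some (Sum.inr e) => b.π x e
          Θ := fun ρ x => g (ρ (some (Sum.inl a.top)) (a.Θ (fun e => ρ (some (Sum.inl e))) x))
            (ρ (some (Sum.inr b.top)) (b.Θ (fun e => ρ (some (Sum.inr e))) x))
          card_le := by
            have h1 := a.card_le
            have h2 := b.card_le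
            rw [Fintype.card_option, Fintype.card_sum]
            simp only [Fm.occU]
            omega
          att_le := fun j => by
            have h1 := a.att_le j
            have h2 := b.att_le j
            refine (card_union_le _ _).trans ?_
            rw [card_map, card_map]
            simp only [Fm.occ]
            omega
          att_U := fun j hj => by
            rw [a.att_U j hj, b.att_U j hj]
            simp
          eval_eq := fun x => by
            simp only [Fm.eval, id]
            rw [a.eval_eq x, b.eval_eq x]
          π_dep := fun x x' e he => by
            match e with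
            | none => rfl
            | some (Sum.inl e) =>
              exact a.π_dep x x' e fun j hj => he j (mem_union_left _ (by
                rw [mem_map]; exact ⟨e, hj, rfl⟩))
            | some (Sum.inr e) =>
              exact b.π_dep x x' e fun j hj => he j (mem_union_right _ (by
                rw [mem_map]; exact ⟨e, hj, rfl⟩))
          Θ_dep := fun ρ ρ' x x' hρ hx => by
            rw [hρ _ (by simp), hρ (some (Sum.inr b.top)) (by simp),
              a.Θ_dep (fun e => ρ (some (Sum.inl e))) (fun e => ρ' (some (Sum.inl e))) x x'
                (fun e _ => hρ _ (by simp)) hx,
              b.Θ_dep (fun e => ρ (some (Sum.inr e))) (fun e => ρ' (some (Sum.inr e))) x x'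
                (fun e _ => hρ _ (by simp)) hx] }⟩

end Pool.Agent.Lib.MP_53850c_co.LF
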