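import Pool.Agent.Lib.MP_53850c_co.BW.Defs
import Pool.Agent.Lib.MP_53850c_co.LF.Classes
import Pool.Agent.Lib.MP_53850c_co.BW.Dich
import Pool.Agent.Lib.MP_53850c_co.BW.Top
import Pool.Agent.Lib.MP_53850c_co.BW.Side
import Pool.Agent.Lib.MP_53850c_co.BW.Top0
import Pool.Agent.Lib.MP_53850c_co.BW.Fibre0

section
/-!
# Restriction of an edge set to a subcube of `h` free directions, averaged over the other coordinates
-/
set_option autoImplicit false

namespace Pool.Agent.Lib.MP_53850c_co.LF

open Finset Pool.Agent.Lib.MP_53850c_co.BW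

variable {n h w : ℕ}

/-- the word with the letters `v` at the positions `e` and the bits of `y` elsewhere -/
noncomputable def ext (e : Fin h → Fin n) (v : Fin h → Option Bool) (y : Fin n → Bool) :
    Fin n → Option Bool :=
  Function.extend e v (fun i => some (y i))

lemma ext_apply {e : Fin h → Fin n} (he : Function.Injective e) (v : Fin h → Option Bool)
    (y : Fin n → Bool) (j : Fin h) : ext e v y (e j) = v j :=
  he.extend_apply _ _ _

lemma ext_apply' {e : Fin h → Fin n} (v : Fin h → Option Bool) (y : Fin n → Bool) {i : Fin n}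
    (hi : ¬ ∃ j, e j = i) : ext e v y i = some (y i) :=
  Function.extend_apply' _ _ _ hi

lemma ext_comp {e : Fin h → Fin n} (he : Function.Injective e) (v : Fin h → Option Bool)
    (y : Fin n → Bool) : ext e v y ∘ e = v := funext fun j => ext_apply he v y j

lemma dim_ext {e : Fin h → Fin n} (he : Function.Injective e) (v : Fin h → Option Bool)
    (y : Fin n → Bool) : dim (ext e v y) = dim v := by
  classical
  unfold dim
  have h1 : (univ.filter fun i => ext e v y i = none) =
      (univ.filter fun j => v j = none).map ⟨e, he⟩ := by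
    ext i
    simp only [mem_filter, mem_univ, true_and, mem_map, Function.Embedding.coeFn_mk]
    constructor
    · intro hi
      by_cases hex : ∃ j, e j = i
      · obtain ⟨j, rfl⟩ := hex
        rw [ext_apply he] at hi
        exact ⟨j, hi, rfl⟩
      · rw [ext_apply' v y hex] at hi
        exact absurd hi (by simp)
    · rintro ⟨j, hj, rfl⟩
      rw [ext_apply he]
      exact hj
  rw [h1, card_map]

/-- a word inside the face `ext e s y` -/
lemma eq_ext_of_sub {e : Fin h → Fin n} (he : Function.Injective e) {s : Fin h → Option Bool}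
    {y : Fin n → Bool} {u : Fin n → Option Bool} (hu : Sub u (ext e s y)) :
    u = ext e (u ∘ e) y ∧ Sub (u ∘ e) s := by
  constructor
  · funext i
    by_cases hex : ∃ j, e j = i
    · obtain ⟨j, rfl⟩ := hex
      rw [ext_apply he]
      rfl
    · have h1 := hu i
      rw [ext_apply' s y hex] at h1
      rw [ext_apply' _ y hex]
      exact h1 (by simp)
  · intro j hj
    have h1 := hu (e j)
    rw [ext_apply he] at h1
    exact h1 hj

/-- every word of `Q_n` arises from exactly `2 ^ h` pairs -/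
lemma card_fibre {e : Fin h → Fin n} (he : Function.Injective e) (u : Fin n → Option Bool)
    (hu : ∀ i, (¬ ∃ j, e j = i) → u i ≠ none) :
    ((univ : Finset ((Fin n → Bool) × (Fin h → Option Bool))).filter
      (fun p => ext e p.2 p.1 = u)).card = 2 ^ h := by
  classical
  have h1 : (univ : Finset (Fin h → Bool)).card = 2 ^ h := by simp
  rw [← h1]
  symm
  refine card_bij (fun z _ => (Function.extend e z (fun i => (u i).getD false), u ∘ e)) ?_ ?_ ?_
  · intro z _
    rw [mem_filter]
    refine ⟨mem_univ _, ?_⟩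
    funext i
    by_cases hex : ∃ j, e j = i
    · obtain ⟨j, rfl⟩ := hex
      rw [ext_apply he]
      rfl
    · rw [ext_apply' _ _ hex]
      simp only
      rw [Function.extend_apply' _ _ _ hex]
      rcases h2 : u i with _ | b
      · exact absurd h2 (hu i hex)
      · rfl
  · intro z _ z' _ hzz
    have h2 := congrArg Prod.fst hzz
    simp only at h2
    funext j
    have h3 := congrFun h2 (e j)
    rwa [he.extend_apply, he.extend_apply] at h3
  · rintro ⟨y, v⟩ hp
    rw [mem_filter] at hp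
    have hp := hp.2
    simp only at hp
    refine ⟨y ∘ e, mem_univ _, ?_⟩
    rw [Prod.mk.injEq]
    constructor
    · funext i
      by_cases hex : ∃ j, e j = i
      · obtain ⟨j, rfl⟩ := hex
        rw [he.extend_apply]
        rfl
      · rw [Function.extend_apply' _ _ _ hex, ← hp, ext_apply' _ _ hex]
        rfl
    · rw [← hp, ext_comp he]

/-- averaging a count over all fixings of the other coordinates -/
lemma sum_card_ext {e : Fin h → Fin n} (he : Function.Injective e)
    (E : (Fin n → Option Bool) → Prop) [DecidablePred E] (l : ℕ) :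
    ∑ y : Fin n → Bool, (univ.filter fun v : Fin h → Option Bool =>
      dim v = l ∧ E (ext e v y)).card =
    2 ^ h * (univ.filter fun u : Fin n → Option Bool =>
      dim u = l ∧ (∀ i, (¬ ∃ j, e j = i) → u i ≠ none) ∧ E u).card := by
  classical
  have h1 : ∑ y : Fin n → Bool, (univ.filter fun v : Fin h → Option Bool =>
      dim v = l ∧ E (ext e v y)).card =
      ((univ : Finset ((Fin n → Bool) × (Fin h → Option Bool))).filter
        (fun p => dim p.2 = l ∧ E (ext e p.2 p.1))).card := by
    simp_rw [card_filter]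
    rw [← univ_product_univ, sum_product]
  rw [h1]
  have hmaps : ∀ p ∈ ((univ : Finset ((Fin n → Bool) × (Fin h → Option Bool))).filter
      (fun p => dim p.2 = l ∧ E (ext e p.2 p.1))), ext e p.2 p.1 ∈
      (univ.filter fun u : Fin n → Option Bool =>
        dim u = l ∧ (∀ i, (¬ ∃ j, e j = i) → u i ≠ none) ∧ E u) := by
    intro p hp
    rw [mem_filter] at hp ⊢
    refine ⟨mem_univ _, by rw [dim_ext he]; exact hp.2.1, fun i hi => ?_, hp.2.2⟩
    rw [ext_apply' _ _ hi]
    simp
  rw [card_eq_sum_card_fiberwise hmaps]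
  have hfib : ∀ u ∈ (univ.filter fun u : Fin n → Option Bool =>
        dim u = l ∧ (∀ i, (¬ ∃ j, e j = i) → u i ≠ none) ∧ E u),
      (((univ : Finset ((Fin n → Bool) × (Fin h → Option Bool))).filter
        (fun p => dim p.2 = l ∧ E (ext e p.2 p.1))).filter
        (fun p => ext e p.2 p.1 = u)).card = 2 ^ h := by
    intro u hu
    rw [mem_filter] at hu
    rw [← card_fibre he u hu.2.2.1]
    congr 1
    ext p
    simp only [mem_filter, mem_univ, true_and]
    constructor
    · rintro ⟨-, h2⟩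
      exact h2
    · intro h2
      refine ⟨⟨?_, by rw [h2]; exact hu.2.2.2⟩, h2⟩
      rw [← dim_ext he, h2]
      exact hu.2.1
  rw [sum_congr rfl hfib, sum_const, smul_eq_mul, mul_comm]

/-- the edges with their star in the range of `e`, by directions -/
lemma card_edges_range {e : Fin h → Fin n} (he : Function.Injective e)
    (E : (Fin n → Option Bool) → Prop) [DecidablePred E] :
    (univ.filter fun u : Fin n → Option Bool =>
      dim u = 1 ∧ (∀ i, (¬ ∃ j, e j = i) → u i ≠ none) ∧ E u).card =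
    ∑ j : Fin h, (univ.filter fun u : Fin n → Option Bool =>
      dim u = 1 ∧ u (e j) = none ∧ E u).card := by
  classical
  rw [← card_biUnion]
  · congr 1
    ext u
    simp only [mem_filter, mem_univ, true_and, mem_biUnion]
    constructor
    · rintro ⟨h1, h2, h3⟩
      have h4 : (univ.filter fun i => u i = none).card = 1 := h1
      obtain ⟨q, hq⟩ := card_eq_one.mp h4
      have h5 : u q = none := by
        have : q ∈ univ.filter fun i => u i = none := by rw [hq]; simp
        exact (mem_filter.1 this).2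
      by_cases hex : ∃ j, e j = q
      · obtain ⟨j, rfl⟩ := hex
        exact ⟨j, h1, h5, h3⟩
      · exact absurd h5 (h2 q hex)
    · rintro ⟨j, h1, h2, h3⟩
      refine ⟨h1, fun i hi hin => ?_, h3⟩
      have h4 : (univ.filter fun i => u i = none).card = 1 := h1
      obtain ⟨q, hq⟩ := card_eq_one.mp h4
      have h5 : e j ∈ univ.filter fun i => u i = none := by simp [h2]
      have h6 : i ∈ univ.filter fun i => u i = none := by simp [hin]
      rw [hq, mem_singleton] at h5 h6
      exact hi ⟨j, h5.trans h6.symm⟩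
  · intro j _ j' _ hne
    rw [Function.onFun, disjoint_left]
    intro u hu hu'
    rw [mem_filter] at hu hu'
    apply hne
    have h3 : (univ.filter fun i => u i = none).card = 1 := hu.2.1
    obtain ⟨r, hr⟩ := card_eq_one.mp h3
    have h4 : e j ∈ univ.filter fun i => u i = none := by simp [hu.2.2.1]
    have h5 : e j' ∈ univ.filter fun i => u i = none := by simp [hu'.2.2.1]
    rw [hr, mem_singleton] at h4 h5
    exact he (h4.trans h5.symm)

/-- a covering restricts to a covering of each subcube -/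
lemma covers_restrict {e : Fin h → Fin n} (he : Function.Injective e)
    (E : (Fin n → Option Bool) → Prop) {d l : ℕ}
    (hcov : ∀ s : Fin n → Option Bool, dim s = d → ∃ u, dim u = l ∧ Sub u s ∧ E u)
    (y : Fin n → Bool) (s : Fin h → Option Bool) (hs : dim s = d) :
    ∃ v, dim v = l ∧ Sub v s ∧ E (ext e v y) := by
  obtain ⟨u, hu1, hu2, hu3⟩ := hcov (ext e s y) (by rw [dim_ext he]; exact hs)
  obtain ⟨h1, h2⟩ := eq_ext_of_sub he hu2
  refine ⟨u ∘ e, ?_, h2, by rw [← h1]; exact hu3⟩
  rw [← dim_ext he (u ∘ e) y, ← h1]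
  exact hu1

/-- **RESTRICT (edges).** If for each fixing `y` of the other coordinates the edge set `E` restricted
to the directions `e 0, ..., e (h-1)` is recognised by a program of width `w`, and `h` is large, then
the directions `e j` have on average the density `1 / B d - ε`. -/
theorem restrict {d : ℕ} {ε : ℝ}
    (hge : ∀ P : Prog h w, P.Covers d → (1 / (B d : ℝ) - ε) * ((h : ℝ) * 2 ^ (h - 1)) ≤ P.size)
    (E : (Fin n → Option Bool) → Prop) [DecidablePred E] (e : Fin h → Fin n)
    (he : Function.Injective e)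
    (hP : ∀ y : Fin n → Bool, ∃ P : Prog h w, ∀ v, P.Accepts v ↔ E (ext e v y))
    (hcov : ∀ s : Fin n → Option Bool, dim s = d → ∃ u, dim u = 1 ∧ Sub u s ∧ E u) :
    (1 / (B d : ℝ) - ε) * ((h : ℝ) * 2 ^ (n - 1)) ≤
      ∑ j : Fin h, ((univ.filter fun u : Fin n → Option Bool =>
        dim u = 1 ∧ u (e j) = none ∧ E u).card : ℝ) := by
  classical
  rcases Nat.eq_zero_or_pos h with h0 | hpos
  · subst h0
    simp
  have hn : 0 < n := (e ⟨0, hpos⟩).pos
  have h1 : ∀ y : Fin n → Bool, (1 / (B d : ℝ) - ε) * ((h : ℝ) * 2 ^ (h - 1)) ≤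
      ((univ.filter fun v : Fin h → Option Bool => dim v = 1 ∧ E (ext e v y)).card : ℝ) := by
    intro y
    obtain ⟨P, hP⟩ := hP y
    have h2 := hge P (by
      intro s hs
      obtain ⟨v, hv1, hv2, hv3⟩ := covers_restrict he E hcov y s hs
      exact ⟨v, hv1, hv2, (hP v).2 hv3⟩)
    unfold Prog.size at h2
    simp_rw [hP] at h2
    exact h2
  have h2 := sum_le_sum fun (y : Fin n → Bool) (_ : y ∈ univ) => h1 y
  rw [sum_const, card_univ, Fintype.card_fun, Fintype.card_bool, Fintype.card_fin,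
    nsmul_eq_mul] at h2
  have h3 := sum_card_ext he E 1
  rw [card_edges_range he E] at h3
  have h4 : ∑ y : Fin n → Bool, ((univ.filter fun v : Fin h → Option Bool =>
      dim v = 1 ∧ E (ext e v y)).card : ℝ) = 2 ^ h * ∑ j : Fin h,
      ((univ.filter fun u : Fin n → Option Bool => dim u = 1 ∧ u (e j) = none ∧ E u).card : ℝ) := by
    exact_mod_cast h3
  rw [h4] at h2
  have h5 : (2 : ℝ) ^ n = 2 * 2 ^ (n - 1) := by
    rw [← pow_succ']
    congr 1
    omega
  have h6 : (2 : ℝ) ^ h = 2 * 2 ^ (h - 1) := by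
    rw [← pow_succ']
    congr 1
    omega
  push_cast at h2
  have h7 : (0 : ℝ) < 2 ^ h := by positivity
  refine le_of_mul_le_mul_left (le_trans (le_of_eq ?_) h2) h7
  rw [h5, h6]
  ring

end Pool.Agent.Lib.MP_53850c_co.LF
end

section
/-!
# Formulas of linear size: edges
-/
namespace Pool.Agent.Lib.MP_53850c_co.LF

open Finset Pool.Agent.Lib.MP_53850c_co.BW

/-- edges, sorted by direction -/
lemma card_edges_eq_sum {n : ℕ} (E : (Fin n → Option Bool) → Prop) [DecidablePred E] :
    (univ.filter fun u : Fin n → Option Bool => dim u = 1 ∧ E u).card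
      = ∑ q : Fin n, (univ.filter fun u : Fin n → Option Bool =>
        dim u = 1 ∧ u q = none ∧ E u).card := by
  classical
  rw [← card_biUnion]
  · congr 1
    ext u
    simp only [mem_filter, mem_univ, true_and, mem_biUnion]
    constructor
    · rintro ⟨h1, h2⟩
      have h3 : (univ.filter fun i => u i = none).card = 1 := h1
      obtain ⟨q, hq⟩ := card_eq_one.mp h3
      have : q ∈ univ.filter fun i => u i = none := by rw [hq]; simp
      rw [mem_filter] at this
      exact ⟨q, h1, this.2, h2⟩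
    · rintro ⟨q, h1, -, h2⟩
      exact ⟨h1, h2⟩
  · intro q _ q' _ hne
    rw [Function.onFun, disjoint_left]
    intro u hu hu'
    rw [mem_filter] at hu hu'
    apply hne
    have h3 : (univ.filter fun i => u i = none).card = 1 := hu.2.1
    obtain ⟨r, hr⟩ := card_eq_one.mp h3
    have h4 : q ∈ univ.filter fun i => u i = none := by simp [hu.2.2.1]
    have h5 : q' ∈ univ.filter fun i => u i = none := by simp [hu'.2.2.1]
    rw [hr, mem_singleton] at h4 h5
    rw [h4, h5]

/-- few letters are read often -/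
lemma card_often {n : ℕ} {S : Type} (Φ : Fm n S) (k : ℕ) (hΦ : Φ.size ≤ k * n) (k' : ℕ) :
    (k' + 1) * (univ.filter fun j : Fin n => k' < Φ.occ j).card ≤ k * n := by
  refine le_trans ?_ hΦ
  rw [Fm.size_eq, mul_comm, ← smul_eq_mul, ← sum_const]
  refine (sum_le_sum (g := fun j => Φ.occ j) fun j hj => ?_).trans
    (sum_le_sum_of_subset (filter_subset _ _))
  exact (mem_filter.mp hj).2

/-- the number of directions of small density which are not read often is bounded -/
theorem few_bad (S : Type) [Finite S] (k' d : ℕ) (hd : 1 ≤ d) (ε : ℝ) (hε : 0 < ε) :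
    ∃ K : ℕ, ∀ (n : ℕ) (Φ : Fm n S) (acc : S → Bool),
      (∀ c : Fin n → Option Bool, dim c = d → ∃ u, dim u = 1 ∧ Sub u c ∧ acc (Φ.eval u) = true) →
      (univ.filter fun j : Fin n => Φ.occ j ≤ k' ∧
        ((univ.filter fun u : Fin n → Option Bool =>
          dim u = 1 ∧ u j = none ∧ acc (Φ.eval u) = true).card : ℝ)
          < (1 / (B d : ℝ) - ε) * 2 ^ (n - 1)).card < K := by
  classical
  have : Fintype S := Fintype.ofFinite S
  obtain ⟨h₀, hh₀⟩ := size_ge specTop specProg (wid (Fintype.card S) k') d hd (ε / 2)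
    (by positivity)
  set h := h₀ + 1 with hh
  refine ⟨KK k' h 0 + 1, fun n Φ acc hcov => ?_⟩
  by_contra hcon
  set X := univ.filter fun j : Fin n => Φ.occ j ≤ k' ∧
        ((univ.filter fun u : Fin n → Option Bool =>
          dim u = 1 ∧ u j = none ∧ acc (Φ.eval u) = true).card : ℝ)
          < (1 / (B d : ℝ) - ε) * 2 ^ (n - 1) with hX
  have hXc : KK k' h 0 ≤ X.card := by omega
  obtain ⟨e, he, heX, hP⟩ := program_exists Φ k' h X
    (fun j hj => (mem_filter.mp hj).2.1) hXc
  have h1 := restrict (w := wid (Fintype.card S) k') (d := d) (ε := ε / 2) (hh₀ h (by omega))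
    (fun u => acc (Φ.eval u) = true) e he (fun y => hP (fun i => some (y i)) acc) hcov
  have h2 : ∑ j : Fin h, ((univ.filter fun u : Fin n → Option Bool =>
        dim u = 1 ∧ u (e j) = none ∧ acc (Φ.eval u) = true).card : ℝ)
      ≤ ∑ _j : Fin h, (1 / (B d : ℝ) - ε) * 2 ^ (n - 1) :=
    sum_le_sum fun j _ => ((mem_filter.mp (heX j)).2.2).le
  rw [sum_const, card_univ, Fintype.card_fin, nsmul_eq_mul] at h2
  have h3 := h1.trans h2
  have hpos : (0 : ℝ) < (h : ℝ) * 2 ^ (n - 1) := by
    have : (0 : ℝ) < h := by rw [hh]; positivity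
    positivity
  nlinarith

/-- **Formulas of linear size, edges.** -/
theorem formula_edges (S : Type) [Finite S] (k d : ℕ) (hd : 1 ≤ d) (ε : ℝ) (hε : 0 < ε) :
    ∃ n₀ : ℕ, ∀ n, n₀ ≤ n → ∀ (Φ : Fm n S) (acc : S → Bool), Φ.size ≤ k * n →
      (∀ c : Fin n → Option Bool, dim c = d → ∃ u, dim u = 1 ∧ Sub u c ∧ acc (Φ.eval u) = true) →
      (1 / (B d : ℝ) - ε) * ((n : ℝ) * 2 ^ (n - 1)) ≤
        (univ.filter fun u : Fin n → Option Bool => dim u = 1 ∧ acc (Φ.eval u) = true).card := by
  classical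
  obtain ⟨k', hk'⟩ := exists_nat_gt (4 * (k : ℝ) / ε)
  obtain ⟨K, hK⟩ := few_bad S k' d hd (ε / 2) (by positivity)
  obtain ⟨n₀, hn₀⟩ := exists_nat_gt (4 * (K : ℝ) / ε)
  refine ⟨n₀, fun n hn Φ acc hsize hcov => ?_⟩
  rcases le_or_gt (1 / (B d : ℝ) - ε) 0 with hneg | hpos
  · refine le_trans ?_ (Nat.cast_nonneg _)
    have : (0 : ℝ) ≤ (n : ℝ) * 2 ^ (n - 1) := by positivity
    nlinarith
  set D : Fin n → ℕ := fun q => (univ.filter fun u : Fin n → Option Bool =>
        dim u = 1 ∧ u q = none ∧ acc (Φ.eval u) = true).card with hD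
  set X := univ.filter fun j : Fin n => Φ.occ j ≤ k' ∧
        (D j : ℝ) < (1 / (B d : ℝ) - ε / 2) * 2 ^ (n - 1) with hX
  set Y := univ.filter fun j : Fin n => k' < Φ.occ j with hY
  have hXK : X.card < K := hK n Φ acc hcov
  have hYk : (k' + 1) * Y.card ≤ k * n := card_often Φ k hsize k'
  have hB1 : 1 / (B d : ℝ) ≤ 1 := by
    rw [div_le_one (by exact_mod_cast B_pos hd)]
    exact_mod_cast B_pos hd
  have h2pow : (0 : ℝ) < 2 ^ (n - 1) := by positivity
  have hn0 : (0 : ℝ) ≤ n := Nat.cast_nonneg _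
  -- the other directions
  have hge : ∑ q ∈ univ.filter (fun q : Fin n => q ∉ X ∪ Y),
      (1 / (B d : ℝ) - ε / 2) * 2 ^ (n - 1) ≤ ∑ q : Fin n, (D q : ℝ) := by
    refine (sum_le_sum fun q hq => ?_).trans
      (sum_le_sum_of_subset_of_nonneg (filter_subset _ _) fun q _ _ => Nat.cast_nonneg _)
    rw [mem_filter, mem_union, not_or] at hq
    obtain ⟨-, hq1, hq2⟩ := hq
    by_contra hlt
    push Not at hlt
    apply hq1
    rw [hX, mem_filter]
    refine ⟨mem_univ _, ?_, hlt⟩
    by_contra hocc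
    apply hq2
    rw [hY, mem_filter]
    exact ⟨mem_univ _, by omega⟩
  have hcard2 : (univ.filter (fun q : Fin n => q ∉ X ∪ Y)).card = n - (X ∪ Y).card := by
    have h1 : univ.filter (fun q : Fin n => q ∉ X ∪ Y) = (X ∪ Y)ᶜ := by
      ext q
      rw [mem_filter, mem_compl]
      exact ⟨fun h => h.2, fun h => ⟨mem_univ _, h⟩⟩
    rw [h1, card_compl, Fintype.card_fin]
  have hXYn : (X ∪ Y).card ≤ n := by
    have := card_le_univ (X ∪ Y)
    simpa using this
  rw [sum_const, hcard2, nsmul_eq_mul, Nat.cast_sub hXYn] at hge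
  rw [card_edges_eq_sum]
  push_cast
  refine le_trans ?_ hge
  have hXY : ((X ∪ Y).card : ℝ) ≤ ε / 2 * n := by
    have h1 : ((X ∪ Y).card : ℝ) ≤ X.card + Y.card := by exact_mod_cast card_union_le X Y
    have h2 : (X.card : ℝ) ≤ K := by exact_mod_cast hXK.le
    have h3 : (K : ℝ) ≤ ε / 4 * n := by
      have h4 : 4 * (K : ℝ) / ε < n := hn₀.trans_le (by exact_mod_cast hn)
      rw [div_lt_iff₀ hε] at h4
      linarith
    have h5 : (Y.card : ℝ) ≤ ε / 4 * n := by
      have h6 : ((k' : ℝ) + 1) * Y.card ≤ k * n := by exact_mod_cast hYk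
      rw [div_lt_iff₀ hε] at hk'
      have hYc : (0 : ℝ) ≤ Y.card := Nat.cast_nonneg _
      have hk0 : (0 : ℝ) ≤ k := Nat.cast_nonneg _
      -- (k'+1) Y ≤ k n ≤ k' ε n / 4
      have h7 : (k' : ℝ) * (4 * Y.card) ≤ k' * (ε * n) := by nlinarith
      rcases Nat.eq_zero_or_pos k' with h0 | h0
      · have hk00 : (k' : ℝ) = 0 := by exact_mod_cast h0
        rw [hk00] at hk'
        nlinarith
      · have h8 : (0 : ℝ) < k' := by exact_mod_cast h0
        have := le_of_mul_le_mul_left h7 h8
        linarith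
    linarith
  have hc : 0 ≤ 1 / (B d : ℝ) - ε / 2 := by linarith
  have hkey : (1 / (B d : ℝ) - ε) * n ≤ ((n : ℝ) - (X ∪ Y).card) * (1 / (B d : ℝ) - ε / 2) := by
    have h1 : ((n : ℝ) - ε / 2 * n) * (1 / (B d : ℝ) - ε / 2)
        ≤ ((n : ℝ) - (X ∪ Y).card) * (1 / (B d : ℝ) - ε / 2) :=
      mul_le_mul_of_nonneg_right (by linarith) hc
    refine le_trans ?_ h1
    have h2 : 0 ≤ (n : ℝ) * (ε / 2) * (1 - 1 / (B d : ℝ) + ε / 2) := by
      have : 0 ≤ 1 - 1 / (B d : ℝ) + ε / 2 := by linarith
      positivity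
    nlinarith
  calc (1 / (B d : ℝ) - ε) * ((n : ℝ) * 2 ^ (n - 1))
      = ((1 / (B d : ℝ) - ε) * n) * 2 ^ (n - 1) := by ring
    _ ≤ (((n : ℝ) - (X ∪ Y).card) * (1 / (B d : ℝ) - ε / 2)) * 2 ^ (n - 1) := by gcongr
    _ = _ := by ring

end Pool.Agent.Lib.MP_53850c_co.LF
end

section
/-!
# Formulas of linear size: vertices
-/
namespace Pool.Agent.Lib.MP_53850c_co.LF

open Finset Pool.Agent.Lib.MP_53850c_co.BW

/-- programs of bounded width, vertices -/
theorem size0_ge (w d : ℕ) (hd : 1 ≤ d) (ε : ℝ) (hε : 0 < ε) :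
    ∃ n₀ : ℕ, ∀ n, n₀ ≤ n → ∀ P : Prog n w, P.CoversL d 0 →
      (1 / ((d : ℝ) + 1) - ε) * 2 ^ n ≤ P.sizeL 0 := by
  classical
  obtain ⟨M, _, _, hM⟩ := specProg0 w
  obtain ⟨n₀, hn₀⟩ := specTop0 specThr specFibre0 specLeft specRight M d ε hd hε
  refine ⟨n₀, fun n hn P hP => ?_⟩
  obtain ⟨α, ψ, h1, h2⟩ := hM n P
  have h3 := hn₀ n hn α ψ (h1 d hd hP)
  rw [h2]
  exact mul_le_mul_of_nonneg_right h3 (by positivity)

/-- **RESTRICT (vertices).** -/
theorem restrict0 {n h w d : ℕ} {ε : ℝ}
    (hge : ∀ P : Prog h w, P.CoversL d 0 → (1 / ((d : ℝ) + 1) - ε) * 2 ^ h ≤ P.sizeL 0)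
    (E : (Fin n → Option Bool) → Prop) [DecidablePred E] (e : Fin h → Fin n)
    (he : Function.Injective e)
    (hP : ∀ y : Fin n → Bool, ∃ P : Prog h w, ∀ v, P.Accepts v ↔ E (ext e v y))
    (hcov : ∀ s : Fin n → Option Bool, dim s = d → ∃ u, dim u = 0 ∧ Sub u s ∧ E u) :
    (1 / ((d : ℝ) + 1) - ε) * 2 ^ n ≤
      ((univ.filter fun u : Fin n → Option Bool => dim u = 0 ∧ E u).card : ℝ) := by
  classical
  have h1 : ∀ y : Fin n → Bool, (1 / ((d : ℝ) + 1) - ε) * 2 ^ h ≤
      ((univ.filter fun v : Fin h → Option Bool => dim v = 0 ∧ E (ext e v y)).card : ℝ) := by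
    intro y
    obtain ⟨P, hP⟩ := hP y
    have h2 := hge P (by
      intro s hs
      obtain ⟨v, hv1, hv2, hv3⟩ := covers_restrict he E hcov y s hs
      exact ⟨v, hv1, hv2, (hP v).2 hv3⟩)
    unfold Prog.sizeL at h2
    simp_rw [hP] at h2
    exact h2
  have h2 := sum_le_sum fun (y : Fin n → Bool) (_ : y ∈ univ) => h1 y
  rw [sum_const, card_univ, Fintype.card_fun, Fintype.card_bool, Fintype.card_fin,
    nsmul_eq_mul] at h2
  have h3 := sum_card_ext he E 0
  have h4 : ∑ y : Fin n → Bool, ((univ.filter fun v : Fin h → Option Bool =>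
      dim v = 0 ∧ E (ext e v y)).card : ℝ) ≤ 2 ^ h *
      ((univ.filter fun u : Fin n → Option Bool => dim u = 0 ∧ E u).card : ℝ) := by
    have h5 : ∑ y : Fin n → Bool, ((univ.filter fun v : Fin h → Option Bool =>
        dim v = 0 ∧ E (ext e v y)).card : ℝ) = 2 ^ h * ((univ.filter fun u : Fin n → Option Bool =>
        dim u = 0 ∧ (∀ i, (¬ ∃ j, e j = i) → u i ≠ none) ∧ E u).card : ℝ) := by
      exact_mod_cast h3
    rw [h5]
    refine mul_le_mul_of_nonneg_left ?_ (by positivity)
    have h6 : (univ.filter fun u : Fin n → Option Bool =>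
        dim u = 0 ∧ (∀ i, (¬ ∃ j, e j = i) → u i ≠ none) ∧ E u) ⊆
        (univ.filter fun u : Fin n → Option Bool => dim u = 0 ∧ E u) := by
      intro u hu
      rw [mem_filter] at hu ⊢
      exact ⟨hu.1, hu.2.1, hu.2.2.2⟩
    exact_mod_cast card_le_card h6
  have h5 := h2.trans h4
  have h7 : (0 : ℝ) < 2 ^ h := by positivity
  refine le_of_mul_le_mul_left (le_trans (le_of_eq ?_) h5) h7
  push_cast
  ring

/-- **Formulas of linear size, vertices.** -/
theorem formula_vertices (S : Type) [Finite S] (k d : ℕ) (hd : 1 ≤ d) (ε : ℝ) (hε : 0 < ε) :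
    ∃ n₀ : ℕ, ∀ n, n₀ ≤ n → ∀ (Φ : Fm n S) (acc : S → Bool), Φ.size ≤ k * n →
      (∀ c : Fin n → Option Bool, dim c = d → ∃ u, dim u = 0 ∧ Sub u c ∧ acc (Φ.eval u) = true) →
      (1 / ((d : ℝ) + 1) - ε) * 2 ^ n ≤
        (univ.filter fun u : Fin n → Option Bool => dim u = 0 ∧ acc (Φ.eval u) = true).card := by
  classical
  have : Fintype S := Fintype.ofFinite S
  obtain ⟨h, hh⟩ := size0_ge (wid (Fintype.card S) (2 * k)) d hd ε hε
  refine ⟨2 * KK (2 * k) h 0, fun n hn Φ acc hsize hcov => ?_⟩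
  set X := univ.filter fun j : Fin n => Φ.occ j ≤ 2 * k with hX
  have hXc : KK (2 * k) h 0 ≤ X.card := by
    have h1 := card_often Φ k hsize (2 * k)
    have h2 : X.card + (univ.filter fun j : Fin n => 2 * k < Φ.occ j).card = n := by
      have := card_filter_add_card_filter_not (s := (univ : Finset (Fin n)))
        (fun j : Fin n => Φ.occ j ≤ 2 * k)
      simp only [not_le, card_univ, Fintype.card_fin] at this
      exact this
    set y := (univ.filter fun j : Fin n => 2 * k < Φ.occ j).card with hy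
    have h3 : 2 * y ≤ n := by
      rcases Nat.eq_zero_or_pos k with rfl | hk
      · simp at h1
        omega
      · by_contra hcon
        push Not at hcon
        have : k * n < k * (2 * y) := Nat.mul_lt_mul_of_pos_left hcon hk
        nlinarith
    omega
  obtain ⟨e, he, heX, hP⟩ := program_exists Φ (2 * k) h X
    (fun j hj => (mem_filter.mp hj).2) hXc
  exact restrict0 (w := wid (Fintype.card S) (2 * k)) (d := d) (ε := ε) (hh h le_rfl)
    (fun u => acc (Φ.eval u) = true) e he (fun y => hP (fun i => some (y i)) acc) hcov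

end Pool.Agent.Lib.MP_53850c_co.LF
end
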